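import Pool.Agent.H382R2.Final0
import Pool.Agent.TH803.CL.NearS

/-!
Most of the gaps between consecutive ordinates of zeta zeros are at least a constant times the mean
spacing.
-/

set_option autoImplicit false

open Filter Topology

namespace Pool.Agent.X284.GP

open SG

/-- the `n`-th gap -/
noncomputable def gap (n : ℕ) : ℝ := ord (n + 1) - ord n

lemma gap_nonneg {n : ℕ} (hn : 1 ≤ n) : 0 ≤ gap n := by
  unfold gap
  have := ord_mono hn (Nat.le_succ n)
  linarith

lemma gap_sum {a b : ℕ} (h : a ≤ b) : ∑ n ∈ Finset.Ico a b, gap n = ord b - ord a := by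
  unfold gap
  rw [Finset.sum_Ico_sub ord h]

/-- the ordinate of a zero is enumerated -/
lemma ord_NZ {s : ℂ} (h0 : riemannZeta s = 0) (h1 : 0 < s.re) (h2 : s.re < 1) (h3 : 0 < s.im) :
    1 ≤ NZ s.im ∧ ord (NZ s.im) = s.im ∧ ∀ u : ℝ, u < s.im → NZ u < NZ s.im := by
  have hlt : ∀ u : ℝ, u < s.im → NZ u < NZ s.im := by
    intro u hu
    have h4 := NZ_add_le u s.im hu.le {s} (by
      intro z hz
      rw [Finset.mem_singleton] at hz
      subst hz
      exact ⟨⟨h0, h1, h2, h3, le_rfl⟩, hu⟩)
    rw [Finset.sum_singleton] at h4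
    have h5 := zmult_pos h3 h0
    omega
  have h1' : 1 ≤ NZ s.im := by
    have := hlt (s.im - 1) (by linarith)
    omega
  refine ⟨h1', ?_, hlt⟩
  have h6 : ord (NZ s.im) ≤ s.im := (ord_le_iff h1' _).2 le_rfl
  by_contra hne
  have h7 : ord (NZ s.im) < s.im := lt_of_le_of_ne h6 hne
  have h8 := hlt _ h7
  have h9 := le_NZ_ord h1'
  omega

/-- the large gaps with index in `(NZ T, NZ (2 T)]` -/
noncomputable def big (T e : ℝ) : Finset ℕ := by
  classical
  exact (Finset.Ioc (NZ T) (NZ (2 * T))).filter (fun n => e ≤ gap n)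

/-- one block -/
theorem block {T d e : ℝ} (hT : 0 < T) (hd : 0 < d) (he : 0 < e) (G : Finset ℂ)
    (hG : ∀ s ∈ G, riemannZeta s = 0 ∧ s.re = 1 / 2 ∧ T < s.im ∧ s.im ≤ 2 * T)
    (hsep : ∀ s ∈ G, ∀ s' ∈ G, s ≠ s' → d ≤ ‖s - s'‖) :
    (G.card : ℝ) ≤ (big T e).card + 1 + ((NZ (2 * T) : ℝ) - NZ T) * (e / d) := by
  classical
  set w : ℕ → ℝ := fun n => if e ≤ gap n then 1 else gap n / d with hw
  have hw0 : ∀ n, 1 ≤ n → 0 ≤ w n := by
    intro n hn
    rw [hw]
    dsimp only
    split_ifs
    · exact zero_le_one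
    · exact div_nonneg (gap_nonneg hn) hd.le
  -- the set of the ordinates
  set A : Finset ℝ := G.image (fun s => s.im) with hA
  have hinj : Set.InjOn (fun s : ℂ => s.im) (G : Set ℂ) := by
    intro s hs s' hs' h
    apply Complex.ext
    · rw [(hG s hs).2.1, (hG s' hs').2.1]
    · exact h
  have hcard : A.card = G.card := Finset.card_image_of_injOn hinj
  have hAm : ∀ g ∈ A, T < g ∧ g ≤ 2 * T ∧ 1 ≤ NZ g ∧ ord (NZ g) = g ∧
      ∀ u : ℝ, u < g → NZ u < NZ g := by
    intro g hg
    rw [hA, Finset.mem_image] at hg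
    obtain ⟨s, hs, rfl⟩ := hg
    obtain ⟨a1, a2, a3, a4⟩ := hG s hs
    have h5 := ord_NZ a1 (by rw [a2]; norm_num) (by rw [a2]; norm_num) (by linarith)
    exact ⟨a3, a4, h5.1, h5.2.1, h5.2.2⟩
  have hAs : ∀ g ∈ A, ∀ g' ∈ A, g' < g → d ≤ g - g' := by
    intro g hg g' hg' hlt
    rw [hA, Finset.mem_image] at hg hg'
    obtain ⟨s, hs, rfl⟩ := hg
    obtain ⟨s', hs', rfl⟩ := hg'
    have hne : s ≠ s' := by
      rintro rfl
      exact lt_irrefl _ hlt
    have h1 := hsep s hs s' hs' hne
    have h2 : s - s' = ((s.im - s'.im : ℝ) : ℂ) * Complex.I := by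
      apply Complex.ext
      · simp [(hG s hs).2.1, (hG s' hs').2.1]
      · simp
    rw [h2, norm_mul, Complex.norm_I, mul_one, Complex.norm_real, Real.norm_eq_abs,
      abs_of_pos (by simpa using hlt)] at h1
    exact h1
  -- between two of them
  have hbet : ∀ g ∈ A, ∀ g' ∈ A, g' < g → 1 ≤ ∑ n ∈ Finset.Ico (NZ g') (NZ g), w n := by
    intro g hg g' hg' hlt
    obtain ⟨a1, a2, a3, a4, a5⟩ := hAm g hg
    obtain ⟨b1, b2, b3, b4, b5⟩ := hAm g' hg'
    by_cases hb : ∃ n ∈ Finset.Ico (NZ g') (NZ g), e ≤ gap n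
    · obtain ⟨n, hn, hne⟩ := hb
      have h1 : w n = 1 := by rw [hw]; dsimp only; rw [if_pos hne]
      rw [← h1]
      refine Finset.single_le_sum (f := w) (fun m hm => hw0 m ?_) hn
      rw [Finset.mem_Ico] at hm
      omega
    · push Not at hb
      have h1 : ∑ n ∈ Finset.Ico (NZ g') (NZ g), w n =
          ∑ n ∈ Finset.Ico (NZ g') (NZ g), gap n / d := by
        refine Finset.sum_congr rfl fun n hn => ?_
        rw [hw]
        dsimp only
        rw [if_neg (not_le.2 (hb n hn))]
      rw [h1, ← Finset.sum_div, gap_sum (NZ_mono hlt.le), a4, b4, le_div_iff₀ hd, one_mul]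
      exact hAs g hg g' hg' hlt
  -- induction
  have hind : ∀ B : Finset ℝ, B ⊆ A → ∀ g ∈ B, (∀ x ∈ B, x ≤ g) →
      (B.card : ℝ) - 1 ≤ ∑ n ∈ Finset.Ico (NZ T + 1) (NZ g), w n := by
    intro B
    induction B using Finset.induction_on_max with
    | empty => intro _ g hg; exact absurd hg (Finset.notMem_empty g)
    | insert a B hB ih =>
      intro hsub g hg hmax
      have haA : a ∈ A := hsub (Finset.mem_insert_self a B)
      have hBA : B ⊆ A := (Finset.subset_insert a B).trans hsub
      have hga : g = a := by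
        rcases Finset.mem_insert.1 hg with h | h
        · exact h
        · have h1 := hmax a (Finset.mem_insert_self a B)
          have h2 := hB g h
          linarith
      subst hga
      have haB : g ∉ B := fun h => lt_irrefl _ (hB g h)
      rw [Finset.card_insert_of_notMem haB]
      push_cast
      by_cases hne : B.Nonempty
      · obtain ⟨g', hg', hmax'⟩ := B.exists_max_image id hne
        have h1 := ih hBA g' hg' hmax'
        have h2 := hbet g haA g' (hBA hg') (hB g' hg')
        have h3 : NZ T + 1 ≤ NZ g' := (hAm g' (hBA hg')).2.2.2.2 T (hAm g' (hBA hg')).1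
        have h4 : NZ g' ≤ NZ g := NZ_mono (hB g' hg').le
        rw [← Finset.sum_Ico_consecutive w h3 h4]
        linarith
      · rw [Finset.not_nonempty_iff_eq_empty.1 hne]
        simp only [Finset.card_empty, Nat.cast_zero, zero_add, sub_self]
        refine Finset.sum_nonneg fun n hn => hw0 n ?_
        rw [Finset.mem_Ico] at hn
        omega
  -- the total weight
  have htot : ∑ n ∈ Finset.Ioc (NZ T) (NZ (2 * T)), w n ≤
      (big T e).card + ((NZ (2 * T) : ℝ) - NZ T) * (e / d) := by
    have h1 : ∀ n ∈ Finset.Ioc (NZ T) (NZ (2 * T)),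
        w n ≤ (if e ≤ gap n then (1 : ℝ) else 0) + e / d := by
      intro n _
      rw [hw]
      dsimp only
      split_ifs with h
      · have : 0 ≤ e / d := by positivity
        linarith
      · rw [zero_add]
        exact div_le_div_of_nonneg_right (not_le.1 h).le hd.le
    refine (Finset.sum_le_sum h1).trans ?_
    rw [Finset.sum_add_distrib, Finset.sum_const, Nat.card_Ioc, nsmul_eq_mul,
      ← Finset.sum_filter, Finset.sum_const, nsmul_eq_mul, mul_one,
      Nat.cast_sub (NZ_mono (by linarith : T ≤ 2 * T))]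
    have h2 : (Finset.Ioc (NZ T) (NZ (2 * T))).filter (fun n => e ≤ gap n) = big T e := by
      unfold big
      congr
    rw [h2]
  have hnn : (0 : ℝ) ≤ ((NZ (2 * T) : ℝ) - NZ T) * (e / d) := by
    refine mul_nonneg ?_ (by positivity)
    have := NZ_mono (by linarith : T ≤ 2 * T)
    have : (NZ T : ℝ) ≤ NZ (2 * T) := by exact_mod_cast this
    linarith
  rw [← hcard]
  by_cases hne : A.Nonempty
  · obtain ⟨g, hg, hmax⟩ := A.exists_max_image id hne
    have h1 := hind A subset_rfl g hg hmax
    have h2 : ∑ n ∈ Finset.Ico (NZ T + 1) (NZ g), w n ≤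
        ∑ n ∈ Finset.Ioc (NZ T) (NZ (2 * T)), w n := by
      refine Finset.sum_le_sum_of_subset_of_nonneg ?_ fun n hn _ => hw0 n ?_
      · intro n hn
        rw [Finset.mem_Ico] at hn
        rw [Finset.mem_Ioc]
        have := NZ_mono (hAm g hg).2.1
        omega
      · rw [Finset.mem_Ioc] at hn
        omega
    linarith
  · rw [Finset.not_nonempty_iff_eq_empty.1 hne]
    simp only [Finset.card_empty, Nat.cast_zero]
    positivity

end Pool.Agent.X284.GP
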