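import Pool.Agent.X284.GP.Cnt

/-!
The proportion of the large gaps.
-/

set_option autoImplicit false

open Filter Topology

namespace Pool.Agent.X284.GP

open SG

lemma NZ_diff_le {T : ℝ} (hT : 1 ≤ T) :
    (NZ (2 * T) : ℝ) - NZ T ≤ H370.NN riemannZeta T (2 * T) := by
  have h := NZ_le_add T (2 * T) hT
  have h' : (NZ (2 * T) : ℝ) ≤ NZ T + H370.NN riemannZeta T (2 * T) := by exact_mod_cast h
  linarith

/-- the blocks -/
theorem blocks : ∃ κ : ℝ, 0 < κ ∧ ∀ p : ℝ, 0 ≤ p → p < 2 - H295SI.cc 1 + κ →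
    ∃ a T0 : ℝ, 0 < a ∧ 10 ≤ T0 ∧ ∀ T : ℝ, T0 ≤ T →
      p * ((NZ (2 * T) : ℝ) - NZ T) - 1 ≤ (big T (a / Real.log T)).card := by
  classical
  obtain ⟨κ, h0, hκ, hh0, hh1, hmain⟩ := TH803CL.isoS_main
  refine ⟨κ, hκ, fun p hp0 hp => ?_⟩
  set r : ℝ := 2 - H295SI.cc 1 + κ - p with hr
  have hr0 : 0 < r := by rw [hr]; linarith
  -- δ
  obtain ⟨δ, hδ0, hδ1, hδ2⟩ : ∃ δ : ℝ, 0 < δ ∧ δ ≤ 1 / 30 ∧ 74 * δ ^ 2 ≤ r / 2 := by
    refine ⟨min (1 / 30) (r / 148), lt_min (by norm_num) (by positivity), min_le_left _ _, ?_⟩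
    have h1 : min (1 / 30) (r / 148) ≤ 1 / 30 := min_le_left _ _
    have h2 : min (1 / 30) (r / 148) ≤ r / 148 := min_le_right _ _
    have h3 : 0 < min (1 / 30) (r / 148) := lt_min (by norm_num) (by positivity)
    nlinarith
  obtain ⟨T0, hT0, hT⟩ := hmain _ H370.good_zeta δ hδ0 hδ1
  set a : ℝ := δ * (r / 2) with ha
  have ha0 : 0 < a := by positivity
  refine ⟨a, T0, ha0, hT0, fun T hTT => ?_⟩
  have hT10 : 10 ≤ T := hT0.trans hTT
  have hTpos : 0 < T := by linarith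
  have hlog : 0 < Real.log T := Real.log_pos (by linarith)
  have h1 := hT T hTT T (by
    calc T ^ h0 ≤ T ^ (1 : ℝ) := Real.rpow_le_rpow_of_exponent_le (by linarith) hh1.le
      _ = T := Real.rpow_one T) le_rfl
  rw [show T + T = 2 * T by ring] at h1
  have hd : 0 < δ / Real.log T := by positivity
  have he : 0 < a / Real.log T := by positivity
  have h2 := block hTpos hd he (TH803CL.isoA riemannZeta T (2 * T) (δ / Real.log T)) (by
    intro s hs
    unfold TH803CL.isoA at hs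
    rw [Finset.mem_filter, H370.mem_Zf H370.good_zeta (by linarith)] at hs
    obtain ⟨⟨b1, b2, b3, b4, b5⟩, b6, -⟩ := hs
    exact ⟨b5, b6, b3, b4⟩) (by
    intro s hs s' hs' hne
    unfold TH803CL.isoA at hs hs'
    rw [Finset.mem_filter, H370.mem_Zf H370.good_zeta (by linarith)] at hs hs'
    exact hs.2.2.2 s' hs'.1.2.2.2.2 hs'.1.1 hs'.1.2.1 hne.symm)
  have h3 : a / Real.log T / (δ / Real.log T) = r / 2 := by
    rw [ha]
    field_simp
  rw [h3] at h2
  have h4 := NZ_diff_le (T := T) (by linarith)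
  have h5 : (0 : ℝ) ≤ (NZ (2 * T) : ℝ) - NZ T := by
    have := NZ_mono (by linarith : T ≤ 2 * T)
    have : (NZ T : ℝ) ≤ NZ (2 * T) := by exact_mod_cast this
    linarith
  have h6 : p + r / 2 ≤ 2 - H295SI.cc 1 + κ - 74 * δ ^ 2 := by rw [hr] at hδ2 ⊢; linarith
  have h7 : (p + r / 2) * ((NZ (2 * T) : ℝ) - NZ T) ≤
      (2 - H295SI.cc 1 + κ - 74 * δ ^ 2) * (H370.NN riemannZeta T (2 * T) : ℝ) :=
    mul_le_mul h6 h4 h5 (by linarith)
  nlinarith

/-- there are at least `t` zeros up to height `t` -/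
theorem NZ_lower : ∃ T1 : ℝ, 10 ≤ T1 ∧ ∀ t : ℝ, T1 ≤ t → t ≤ NZ t := by
  classical
  obtain ⟨C, T0, hC, hT0, h⟩ := H370.nn_asymp H370.good_zeta
  obtain ⟨T2, hT2⟩ := (tendsto_atTop.mp Real.tendsto_log_atTop
    ((C + 2) * (2 * Real.pi))).exists_forall_of_atTop
  refine ⟨2 * max T0 (max T2 10), ?_, fun t ht => ?_⟩
  · have : (10 : ℝ) ≤ max T0 (max T2 10) := (le_max_right _ _).trans (le_max_right _ _)
    linarith
  set T : ℝ := t / 2 with hT
  have hTm : max T0 (max T2 10) ≤ T := by rw [hT]; linarith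
  have hTT0 : T0 ≤ T := (le_max_left _ _).trans hTm
  have hTT2 : T2 ≤ T := ((le_max_left _ _).trans (le_max_right _ _)).trans hTm
  have hT10 : 10 ≤ T := ((le_max_right _ _).trans (le_max_right _ _)).trans hTm
  have ht2 : t = 2 * T := by rw [hT]; ring
  have h1 := (abs_le.1 (h T hTT0 T (2 * T) le_rfl (by linarith) (by linarith) le_rfl)).1
  have h2 := hT2 T hTT2
  have hpi : 0 < 2 * Real.pi := by positivity
  have h3 : (C + 2) * T ≤ T * Real.log T / (2 * Real.pi) := by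
    rw [le_div_iff₀ hpi]
    nlinarith
  have h4 : 2 * T ≤ (H370.NN riemannZeta T (2 * T) : ℝ) := by linarith
  have h5 : H370.NN riemannZeta T (2 * T) ≤ NZ (2 * T) := by
    have hfin := H370.zset_finite H370.good_zeta T (2 * T) (by linarith)
    have hNN : H370.NN riemannZeta T (2 * T) = ∑ s ∈ hfin.toFinset, zmult s :=
      finsum_mem_eq_finite_toFinset_sum _ hfin
    have h6 := NZ_add_le T (2 * T) (by linarith) hfin.toFinset (by
      intro s hs
      rw [Set.Finite.mem_toFinset] at hs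
      exact ⟨⟨hs.2.2.2.2, hs.1, hs.2.1, by linarith [hs.2.2.1], hs.2.2.2.1⟩, hs.2.2.1⟩)
    rw [hNN]
    omega
  rw [ht2]
  exact h4.trans (by exact_mod_cast h5)

/-- the number of large gaps with index up to `m` -/
noncomputable def cnt (a : ℝ) (m : ℕ) : ℕ := by
  classical
  exact ((Finset.Icc 1 m).filter (fun n : ℕ => a / Real.log ((n : ℝ) + 1) ≤ gap n)).card

lemma cnt_mono (a : ℝ) {m m' : ℕ} (h : m ≤ m') : cnt a m ≤ cnt a m' := by
  classical
  unfold cnt
  refine Finset.card_le_card ?_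
  intro n hn
  rw [Finset.mem_filter, Finset.mem_Icc] at hn ⊢
  exact ⟨⟨hn.1.1, hn.1.2.trans h⟩, hn.2⟩

lemma cnt_add {a T : ℝ} (ha : 0 < a) (hT : 10 ≤ T) (hN : T ≤ NZ T) :
    cnt a (NZ T) + (big T (a / Real.log T)).card ≤ cnt a (NZ (2 * T)) := by
  classical
  unfold cnt big
  rw [← Finset.card_union_of_disjoint]
  · refine Finset.card_le_card ?_
    intro n hn
    rcases Finset.mem_union.1 hn with hn | hn
    · rw [Finset.mem_filter, Finset.mem_Icc] at hn ⊢
      exact ⟨⟨hn.1.1, hn.1.2.trans (NZ_mono (by linarith))⟩, hn.2⟩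
    · rw [Finset.mem_filter, Finset.mem_Ioc] at hn
      rw [Finset.mem_filter, Finset.mem_Icc]
      refine ⟨⟨by omega, hn.1.2⟩, le_trans ?_ hn.2⟩
      have h1 : (NZ T : ℝ) < n := by exact_mod_cast hn.1.1
      have h2 : 0 < Real.log T := Real.log_pos (by linarith)
      exact div_le_div_of_nonneg_left ha.le h2 (Real.log_le_log (by linarith) (by linarith))
  · rw [Finset.disjoint_left]
    intro n hn hn'
    rw [Finset.mem_filter, Finset.mem_Icc] at hn
    rw [Finset.mem_filter, Finset.mem_Ioc] at hn'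
    omega

theorem dyadic : ∃ κ : ℝ, 0 < κ ∧ ∀ p : ℝ, 0 ≤ p → p < 2 - H295SI.cc 1 + κ →
    ∃ a T0 : ℝ, 0 < a ∧ 10 ≤ T0 ∧ ∀ (j : ℕ) (u : ℝ), T0 ≤ u → u ≤ 2 ^ (j + 1) * T0 →
      p * ((NZ u : ℝ) - NZ (2 * T0)) - j ≤ cnt a (NZ u) := by
  obtain ⟨κ, hκ, h⟩ := blocks
  obtain ⟨T1, hT1, hlow⟩ := NZ_lower
  refine ⟨κ, hκ, fun p hp0 hp => ?_⟩
  obtain ⟨a, T0, ha, hT0, hT⟩ := h p hp0 hp
  set T2 : ℝ := max T0 T1 with hT2
  have h10 : 10 ≤ T2 := hT0.trans (le_max_left _ _)
  have hbase : ∀ (j : ℕ) (u : ℝ), u ≤ 2 * T2 →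
      p * ((NZ u : ℝ) - NZ (2 * T2)) - j ≤ cnt a (NZ u) := by
    intro j u hu
    have h1 : (NZ u : ℝ) ≤ NZ (2 * T2) := by exact_mod_cast NZ_mono hu
    have h2 : (0 : ℝ) ≤ cnt a (NZ u) := Nat.cast_nonneg _
    have h3 : (0 : ℝ) ≤ j := Nat.cast_nonneg _
    nlinarith
  refine ⟨a, T2, ha, h10, fun j => ?_⟩
  induction j with
  | zero =>
    intro u h1 h2
    exact hbase 0 u (by simpa using h2)
  | succ j ih =>
    intro u h1 h2
    by_cases hu : u ≤ 2 * T2
    · exact hbase (j + 1) u hu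
    · push Not at hu
      have h3 : T2 ≤ u / 2 := by linarith
      have h4 : u / 2 ≤ 2 ^ (j + 1) * T2 := by
        rw [pow_succ] at h2
        linarith
      have h5 := ih (u / 2) h3 h4
      have h6 := hT (u / 2) ((le_max_left _ _).trans h3)
      have h7 := cnt_add ha (h10.trans h3) (hlow (u / 2) ((le_max_right _ _).trans h3))
      rw [show 2 * (u / 2) = u by ring] at h6 h7
      have h8 : (cnt a (NZ (u / 2)) : ℝ) + (big (u / 2) (a / Real.log (u / 2))).card ≤
          cnt a (NZ u) := by exact_mod_cast h7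
      push_cast
      nlinarith

/-- **the proportion of the large gaps** -/
theorem main : ∃ κ : ℝ, 0 < κ ∧ ∀ p : ℝ, 0 ≤ p → p < 2 - H295SI.cc 1 + κ →
    ∃ a : ℝ, 0 < a ∧ ∀ᶠ N : ℕ in atTop, p * N ≤ cnt a N := by
  obtain ⟨κ, hκ, h⟩ := dyadic
  obtain ⟨T1, hT1, hlow⟩ := NZ_lower
  obtain ⟨C, hC, hz⟩ := H370.zcount H370.good_zeta
  refine ⟨κ, hκ, fun p hp0 hp => ?_⟩
  set q : ℝ := (p + (2 - H295SI.cc 1 + κ)) / 2 with hq
  have hpq : p < q := by rw [hq]; linarith
  obtain ⟨a, T0, ha, hT0, hd⟩ := h q (by linarith) (by rw [hq]; linarith)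
  refine ⟨a, ha, ?_⟩
  -- the error terms are small
  have hlim : ∀ᶠ N : ℕ in atTop, q * (C * Real.log N) + q * NZ (2 * T0) + (2 * Real.log N + 2) ≤
      (q - p) * N := by
    have h1 : Tendsto (fun x : ℝ => Real.log x / x) atTop (𝓝 0) := by
      have := Real.isLittleO_log_id_atTop.tendsto_div_nhds_zero
      simpa using this
    have h2 : Tendsto (fun x : ℝ => (q * C + 2) * (Real.log x / x) +
        (q * NZ (2 * T0) + 2) * (1 / x)) atTop (𝓝 0) := by
      have h3 : Tendsto (fun x : ℝ => 1 / x) atTop (𝓝 0) := by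
        simpa using tendsto_inv_atTop_zero (𝕜 := ℝ)
      simpa using (h1.const_mul (q * C + 2)).add (h3.const_mul (q * NZ (2 * T0) + 2))
    have h4 : ∀ᶠ x : ℝ in atTop, (q * C + 2) * (Real.log x / x) +
        (q * NZ (2 * T0) + 2) * (1 / x) < q - p :=
      h2.eventually (gt_mem_nhds (by linarith))
    have h5 := tendsto_natCast_atTop_atTop (R := ℝ) |>.eventually h4
    filter_upwards [h5, eventually_gt_atTop 0] with N hN hN0
    have hNr : (0 : ℝ) < N := by exact_mod_cast hN0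
    have h6 : ((q * C + 2) * (Real.log N / N) + (q * NZ (2 * T0) + 2) * (1 / N)) * N ≤
        (q - p) * N := mul_le_mul_of_nonneg_right hN.le hNr.le
    have h7 : ((q * C + 2) * (Real.log N / N) + (q * NZ (2 * T0) + 2) * (1 / N)) * N =
        (q * C + 2) * Real.log N + (q * NZ (2 * T0) + 2) := by
      field_simp
    rw [h7] at h6
    linarith
  have hord : ∀ᶠ N : ℕ in atTop, T0 + 3 ≤ ord N := ord_tendsto.eventually_ge_atTop _
  have hNT : ∀ᶠ N : ℕ in atTop, T1 ≤ (N : ℝ) :=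
    (tendsto_natCast_atTop_atTop (R := ℝ)).eventually_ge_atTop _
  filter_upwards [hlim, hord, hNT, eventually_ge_atTop 1] with N e1 e2 e3 e4
  set u : ℝ := ord N - 1 with hu
  have hu0 : T0 ≤ u := by rw [hu]; linarith
  have hu10 : 10 ≤ u := hT0.trans hu0
  have hNZu : NZ u < N := by
    by_contra hle
    push Not at hle
    have := (ord_le_iff e4 u).2 hle
    rw [hu] at this
    linarith
  have hNle : N ≤ NZ u + H370.NN riemannZeta u (u + 1) := by
    have h1 := NZ_le_add u (u + 1) (by linarith)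
    have h2 := le_NZ_ord e4
    rw [show ord N = u + 1 by rw [hu]; ring] at h2
    omega
  have hordN : ord N ≤ N := by
    rw [ord_le_iff e4]
    have := hlow N e3
    exact_mod_cast this
  have hNNle : (H370.NN riemannZeta u (u + 1) : ℝ) ≤ C * Real.log N := by
    have h1 := hz (u + 1) (by linarith)
    have h2 : H370.NN riemannZeta u (u + 1) ≤ H370.NN riemannZeta (u + 1 - 1) (u + 1 + 1) :=
      H370.NN_mono H370.good_zeta (by linarith) (by linarith) (by linarith)
    have h3 : Real.log (u + 1) ≤ Real.log N := by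
      refine Real.log_le_log (by linarith) ?_
      rw [hu]
      linarith
    calc (H370.NN riemannZeta u (u + 1) : ℝ)
        ≤ H370.NN riemannZeta (u + 1 - 1) (u + 1 + 1) := by exact_mod_cast h2
      _ ≤ C * Real.log (u + 1) := h1
      _ ≤ C * Real.log N := mul_le_mul_of_nonneg_left h3 hC.le
  -- the number of blocks
  obtain ⟨j, hj1, hj2⟩ : ∃ j : ℕ, u ≤ 2 ^ (j + 1) * T0 ∧ (j : ℝ) ≤ 2 * Real.log N + 2 := by
    refine ⟨⌈Real.log u / Real.log 2⌉₊, ?_, ?_⟩
    · have h1 : Real.log u / Real.log 2 ≤ ⌈Real.log u / Real.log 2⌉₊ := Nat.le_ceil _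
      have hl2 : 0 < Real.log 2 := Real.log_pos (by norm_num)
      have h2 : u ≤ 2 ^ ⌈Real.log u / Real.log 2⌉₊ := by
        rw [div_le_iff₀ hl2] at h1
        calc u = Real.exp (Real.log u) := (Real.exp_log (by linarith)).symm
          _ ≤ Real.exp (⌈Real.log u / Real.log 2⌉₊ * Real.log 2) := Real.exp_le_exp.2 h1
          _ = 2 ^ ⌈Real.log u / Real.log 2⌉₊ := by
            rw [Real.exp_nat_mul, Real.exp_log (by norm_num)]
      calc u ≤ 2 ^ ⌈Real.log u / Real.log 2⌉₊ := h2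
        _ = 2 ^ ⌈Real.log u / Real.log 2⌉₊ * 1 := (mul_one _).symm
        _ ≤ 2 ^ (⌈Real.log u / Real.log 2⌉₊ + 1) * T0 := by
          refine mul_le_mul ?_ (by linarith) zero_le_one (by positivity)
          exact pow_le_pow_right₀ (by norm_num) (Nat.le_succ _)
    · have hl2 : (1 : ℝ) / 2 ≤ Real.log 2 := by
        have := Real.log_two_gt_d9
        linarith
      have hlu : 0 ≤ Real.log u := Real.log_nonneg (by linarith)
      have h1 : (⌈Real.log u / Real.log 2⌉₊ : ℝ) < Real.log u / Real.log 2 + 1 :=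
        Nat.ceil_lt_add_one (by positivity)
      have h2 : Real.log u / Real.log 2 ≤ 2 * Real.log u := by
        rw [div_le_iff₀ (by linarith)]
        nlinarith
      have h3 : Real.log u ≤ Real.log N := by
        refine Real.log_le_log (by linarith) ?_
        rw [hu]
        linarith
      linarith
  have h1 := hd j u hu0 hj1
  have h2 : (cnt a (NZ u) : ℝ) ≤ cnt a N := by exact_mod_cast cnt_mono a hNZu.le
  have h3 : (N : ℝ) ≤ NZ u + C * Real.log N := by
    have : (N : ℝ) ≤ NZ u + H370.NN riemannZeta u (u + 1) := by exact_mod_cast hNle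
    linarith
  have hq0 : 0 ≤ q := by linarith
  have h4 : q * (N : ℝ) ≤ q * (NZ u + C * Real.log N) := mul_le_mul_of_nonneg_left h3 hq0
  nlinarith

end Pool.Agent.X284.GP
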